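import Pool.Agent.H8.WP.Targets

/-! # Row TR of the board `wp8_modules`: transport -/

set_option autoImplicit false

namespace Pool.Agent.H69.WP

open Pool.Agent.H69.Sp Pool.Agent.H69.Mt Pool.Agent.H16.TO Pool.Agent.H8.PL Pool.Agent.H8.DI
  Pool.Agent.H8.WP

private theorem eu {V V' : Type} (e : V' ≃ V) {p : V → Prop} (h : ∃! y, p y) :
    ∃! y', p (e y') := by
  obtain ⟨y, hy, hu⟩ := h
  refine ⟨e.symm y, ?_, fun z hz => ?_⟩
  · simpa using hy
  · rw [Equiv.eq_symm_apply]
    exact hu _ hz

theorem pf_tr : W_TR := by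
  intro V V' Q U Hh Vv e st lt S I D F G
  constructor
  · intro h
    exact
      { irr := fun x => h.irr (e x)
        tot := fun x y hs => (h.tot (e x) (e y) hs).imp (fun h1 => e.injective h1) id
        fcm := fun x y => h.fcm (e x) (e y)
        lcm := fun x y => h.lcm (e x) (e y)
        mxx := fun x y => h.mxx (e x) (e y)
        mnn := fun x y => h.mnn (e x) (e y)
        su := fun x h1 h2 => eu e (h.su (e x) h1 h2)
        su' := fun y h1 h2 => eu e (h.su' (e y) h1 h2)
        sl := fun x y => h.sl (e x) (e y)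
        ii := fun x h1 => eu e (h.ii (e x) h1)
        ii' := fun y h1 => eu e (h.ii' (e y) h1)
        il := fun x y => h.il (e x) (e y)
        dd := fun x h1 h2 => eu e (h.dd (e x) h1 h2)
        dd' := fun y h1 h2 => eu e (h.dd' (e y) h1 h2)
        dl := fun x y => h.dl (e x) (e y)
        ff := fun x h1 h2 => eu e (h.ff (e x) h1 h2)
        ff' := fun y h1 h2 => eu e (h.ff' (e y) h1 h2)
        fl := fun x y => h.fl (e x) (e y)
        gg := fun x h1 h2 => eu e (h.gg (e x) h1 h2)
        gg' := fun y x x' h1 h2 h3 h4 h5 =>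
          e.injective (h.gg' (e y) (e x) (e x') h1 h2 h3 h4 h5)
        gl := fun x y => h.gl (e x) (e y)
        un := fun x => h.un (e x) }
  · rintro ⟨h1, h2, h3⟩
    refine ⟨fun a => h1 (e a), fun a b c => h2 (e a) (e b) (e c), fun a b c => ?_⟩
    rcases h3 (e a) (e b) (e c) with h | h | h | h
    · exact Or.inl (e.injective h)
    · exact Or.inr (Or.inl (e.injective h))
    · exact Or.inr (Or.inr (Or.inl (e.injective h)))
    · exact Or.inr (Or.inr (Or.inr h))

end Pool.Agent.H69.WP
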