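import Pool.Agent.H8.WP.Targets

/-! # Row XC of the board `wp8_modules`: the spectrum of the formula -/

set_option autoImplicit false

namespace Pool.Agent.H69.WP

open Pool.Agent.H69.Sp Pool.Agent.H69.Mt Pool.Agent.H16.TO Pool.Agent.H8.PL Pool.Agent.H8.DI
  Pool.Agent.H8.WP

theorem pf_xc (hST : W_ST) (hMW : W_MW) (hMO : W_MO) (hTR : W_TR) (hDF : W_DF) : W_XC := by
  intro Q _ U Hh Vv
  obtain ⟨φ, hφ⟩ := hDF Q U Hh Vv
  refine ⟨φ, fun C hC k => ⟨?_, ?_⟩⟩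
  · rintro ⟨hk, P, R, hCR, hsat⟩
    haveI : Nonempty (Fin k) := ⟨⟨0, hk⟩⟩
    obtain ⟨st, S, I, D, F, G, hax⟩ := (hφ (Fin k) (R 0)).1 ⟨P, R, rfl, hsat⟩
    obtain ⟨W, H, hW, hH, ht, hcard⟩ := hST (Fin k) Q U Hh Vv st (R 0) S I D F G hax
      (hC.2 k (R 0) hCR)
    rw [Nat.card_eq_fintype_card, Fintype.card_fin] at hcard
    exact ⟨W, H, hW, hH, ht, hcard⟩
  · rintro ⟨W, H, hW, hH, ⟨t, ht⟩, rfl⟩
    have hpos : 0 < 2 * (W * H) := by positivity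
    haveI : Nonempty (Fin (2 * (W * H))) := ⟨⟨0, hpos⟩⟩
    have e : Fin (2 * (W * H)) ≃ Bool × Fin (W * H) :=
      Fintype.equivOfCardEq (by simp)
    obtain ⟨h1, h2⟩ := hTR (Bool × Fin (W * H)) (Fin (2 * (W * H))) Q U Hh Vv e
      (stW (W * H) H t) (ltM (W * H) H)
      (fun x y => y.2.1 = x.2.1 + 1) (fun x y => y.2.1 = x.2.1) (fun x y => y.2.1 = x.2.1 + 1)
      (fun x y => y.2.1 = x.2.1 + H) (fun x y => y.2.1 + 1 = x.2.1 + H)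
    have h3 := h1 (hMO Q U Hh Vv W H t hW hH ht)
    have h4 := h2 (hMW (W * H) H hH)
    obtain ⟨P, R, hR, hsat⟩ := (hφ (Fin (2 * (W * H))) (fun x y => ltM (W * H) H (e x) (e y))).2
      ⟨_, _, _, _, _, _, h3⟩
    refine ⟨hpos, P, R, ?_, hsat⟩
    rw [hR]
    exact hC.1 _ _ h4

end Pool.Agent.H69.WP
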